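import Pool.Agent.H90.STE.Stmts

/-!
# STE, row SD: extremality against data processing in the windows of times
-/

set_option autoImplicit false

namespace Pool.STE

open Finset Real
open Pool.Agent.H49.Ent Pool.Agent.H32.Dense Pool.STK Pool.KA

theorem sd (hWF : WFStmt) (hQT : QTStmt) : SDStmt := by
  intro m a R η₂ ε ε₂ θ₂ e N k F ha hN he hG hTm hS hε hθ
  have hkJ : k ≤ N * k := Nat.le_mul_of_pos_left k hN
  obtain ⟨Q, hQ1, hQ2, hQ3, hQ4⟩ := hWF m (N * k) F k N e ε hkJ hTm hS
  have hqt := hQT m (N * k) F k N hkJ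
  have hJr : ((N * k : ℕ) : ℝ) = (N : ℝ) * k := by push_cast; ring
  have hg := hG Q
    (by
      unfold Fam.Tm at hQ1 ⊢
      rw [hJr] at hQ1 ⊢
      linarith)
    (by
      intro j hj
      have h := hQ2 j hj
      rw [hJr] at h ⊢
      linarith)
  rw [hJr] at hg
  have hjT : jT F k N = CH (pT F k N) (yT F k N) (fun w => F.W w.1) -
      CH (pT F k N) (yT F k N) (fun w => w.1) := rfl
  have h1 : CH Q.p (Q.X (N * k)) Q.W ≤ CH F.p (F.X (N * k)) F.W + qT F k N - jT F k N := by
    linarith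
  have h2 := mul_le_mul_of_nonneg_left h1 (by linarith : (0 : ℝ) ≤ a)
  have h3 : a * (CH F.p (F.X (N * k)) F.W + qT F k N - jT F k N) =
      a * CH F.p (F.X (N * k)) F.W + a * qT F k N - a * jT F k N := by ring
  rw [h3] at h2
  have h4 : (a - 1) * jT F k N = a * jT F k N - jT F k N := by ring
  rw [h4]
  linarith

end Pool.STE
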